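import Pool.Agent.Lib.MP_3145b1_co.MS.Spec

/-!
# MP_3145b1_co, project MS: block inequality for equal weights (module MBl)
-/

set_option autoImplicit false

namespace Pool.Agent.MP3145b1.MS

open Finset Pool.Agent.MP3145b1 Pool.Agent.MP3145b1.RC Pool.Agent.MP3145b1.RD Pool.Agent.MP3145b1.RT
open Pool.Agent.MP3145b1.UM Pool.Agent.MP3145b1.LD Pool.Agent.MP3145b1.AG

private theorem MBl_scale (a p : ℕ → ℝ) (B : Finset ℕ) (A : ℝ) (G : ℝ → ℝ) (z : ℝ) (hA0 : A ≠ 0)
    (ha : ∀ i ∈ B, a i = A) :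
    Av a p B G z = Av (fun _ => 1) p B (fun y => G (A * y)) (z / A) := by
  unfold Av
  refine Finset.sum_congr rfl fun S hS => ?_
  have hS' : S ⊆ B := Finset.mem_powerset.1 hS
  have h1 : ∑ i ∈ S, a i = A * (S.card : ℝ) := by
    rw [Finset.sum_congr rfl fun i hi => ha i (hS' hi), Finset.sum_const, nsmul_eq_mul, mul_comm]
  have h2 : z + ∑ i ∈ S, a i = A * (z / A + ∑ _i ∈ S, (1 : ℝ)) := by
    rw [h1, Finset.sum_const, nsmul_eq_mul, mul_one, mul_add, mul_div_cancel₀ _ hA0]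
  rw [h2]

private theorem MBl_g (q A : ℝ) (F : ℝ → ℝ) (y : ℝ) :
    gA q A F (A * y) = gA q 1 (fun x => F (A * x)) y := by
  unfold gA
  beta_reduce
  rw [mul_add A, mul_one]

private theorem MBl_h (A : ℝ) (F : ℝ → ℝ) (y : ℝ) :
    hA A F (A * y) = hA 1 (fun x => F (A * x)) y := by
  unfold hA
  beta_reduce
  rw [mul_add A, mul_one]

theorem rMBl (h1 : S_TBlS) : S_MBl := by
  intro a p B A q F z hA0 ha hp hB hq0 hq1 hF
  have hv : vr (fun _ => 1) p B = AG.sg p B := by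
    unfold vr AG.sg
    refine Finset.sum_congr rfl fun i _ => ?_
    rw [one_pow, mul_one]
  have h := h1 (fun _ => 1) p B (fun x => F (A * x)) q (z / A)
    ⟨fun _ _ => ⟨zero_le_one, le_rfl⟩, hp⟩ (fun _ _ => rfl)
    (by
      unfold RT.Ab
      rw [hv, one_pow]
      exact hB) hq0 hq1 (fun y => hF _)
  rw [MBl_scale a p B A (fun y => gA q A F y ^ 2) z hA0 ha, MBl_scale a p B A (gA q A F) z hA0 ha,
    MBl_scale a p B A (fun y => hA A F y ^ 2) z hA0 ha]
  simp only [MBl_g, MBl_h]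
  exact h

end Pool.Agent.MP3145b1.MS
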