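import Pool.Agent.Lib.MP_3145b1_co.MS.Spec

/-!
# MP_3145b1_co, project MS: only the values matter (module MCo)
-/

set_option autoImplicit false

namespace Pool.Agent.MP3145b1.MS

open Finset Pool.Agent.MP3145b1 Pool.Agent.MP3145b1.RC Pool.Agent.MP3145b1.RD Pool.Agent.MP3145b1.RT Pool.Agent.MP3145b1.UM
  Pool.Agent.MP3145b1.LD Pool.Agent.MP3145b1.AG

theorem rMCo : S_MCo := by
  intro a a' p J F F' z z' h T hT
  unfold Co Av
  refine Finset.sum_congr rfl fun S hS => ?_
  have hS' : S ⊆ J \ T := Finset.mem_powerset.1 hS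
  congr 1
  unfold Df
  refine Finset.sum_congr rfl fun R hR => ?_
  have hR' : R ⊆ T := Finset.mem_powerset.1 hR
  have hd : Disjoint S R := by
    rw [Finset.disjoint_left]
    intro i hi hi'
    exact (Finset.mem_sdiff.1 (hS' hi)).2 (hR' hi')
  have hU : S ∪ R ⊆ J :=
    Finset.union_subset (hS'.trans Finset.sdiff_subset) (hR'.trans hT)
  have h1 := h (S ∪ R) hU
  rw [Finset.sum_union hd, Finset.sum_union hd, ← add_assoc, ← add_assoc] at h1
  rw [h1]

end Pool.Agent.MP3145b1.MS
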