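import Pool.Agent.Lib.MP_3145b1_co.MS.Spec

/-! Module MEn: gates which are symmetric in `d` classes of inputs (encoding). -/

set_option autoImplicit false

namespace Pool.Agent.MP3145b1.MS

open Finset Pool.Agent.MP3145b1 Pool.Agent.MP3145b1.RC Pool.Agent.MP3145b1.RD Pool.Agent.MP3145b1.RT Pool.Agent.MP3145b1.UM Pool.Agent.MP3145b1.LD Pool.Agent.MP3145b1.AG

private theorem MEn_Ph (φ : Finset ℕ → Bool) (V : Finset ℕ) :
    Ph φ (∑ i ∈ V, tw i) = if φ V then -1 else 1 := by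
  have e : ∑ i ∈ V, tw i = ((∑ i ∈ V, 2 ^ i : ℕ) : ℝ) := by
    push_cast
    rfl
  rw [Ph, e, Nat.floor_natCast, Finset.toFinset_bitIndices_sum_two_pow]

/-- digits in base `M + 1` are unique -/
private theorem MEn_dig (M : ℕ) : ∀ (d : ℕ) (f g : ℕ → ℕ), (∀ j, f j ≤ M) → (∀ j, g j ≤ M) →
    ∑ j ∈ range d, f j * (M + 1) ^ j = ∑ j ∈ range d, g j * (M + 1) ^ j → ∀ j, j < d → f j = g j := by
  intro d
  induction d with
  | zero => intro f g _ _ _ j hj; exact absurd hj (Nat.not_lt_zero j)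
  | succ d ih =>
    intro f g hf hg h
    have e : ∀ f : ℕ → ℕ, ∑ j ∈ range (d + 1), f j * (M + 1) ^ j =
        (M + 1) * ∑ j ∈ range d, f (j + 1) * (M + 1) ^ j + f 0 := by
      intro f
      rw [Finset.sum_range_succ', pow_zero, mul_one, Finset.mul_sum]
      congr 1
      exact Finset.sum_congr rfl fun j _ => by rw [pow_succ]; ring
    rw [e f, e g] at h
    have h0 : f 0 = g 0 := by
      have h1 := congrArg (fun x => x % (M + 1)) h
      simp only [Nat.mul_add_mod] at h1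
      rwa [Nat.mod_eq_of_lt (Nat.lt_succ_of_le (hf 0)), Nat.mod_eq_of_lt (Nat.lt_succ_of_le (hg 0))] at h1
    rw [h0] at h
    have h2 : ∑ j ∈ range d, f (j + 1) * (M + 1) ^ j = ∑ j ∈ range d, g (j + 1) * (M + 1) ^ j :=
      Nat.eq_of_mul_eq_mul_left (Nat.succ_pos M) (Nat.add_right_cancel h)
    have h3 := ih (fun j => f (j + 1)) (fun j => g (j + 1)) (fun j => hf _) (fun j => hg _) h2
    intro j hj
    rcases j with _ | j
    · exact h0
    · exact h3 j (by omega)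

private theorem MEn_sum (d M : ℕ) (cl : ℕ → ℕ) (hcl : ∀ i, i < M → cl i < d) (V : Finset ℕ) (hV : V ⊆ range M) :
    ∑ i ∈ V, (M + 1) ^ cl i = ∑ j ∈ range d, (V.filter (fun i => cl i = j)).card * (M + 1) ^ j := by
  rw [← Finset.sum_fiberwise_of_maps_to (s := V) (t := range d) (g := cl)
    (fun i hi => Finset.mem_range.2 (hcl i (Finset.mem_range.1 (hV hi))))]
  refine Finset.sum_congr rfl fun j _ => ?_
  rw [Finset.sum_congr rfl (g := fun _ => (M + 1) ^ j)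
    (fun i hi => by rw [(Finset.mem_filter.1 hi).2]), Finset.sum_const, smul_eq_mul]

private theorem MEn_eq (d M : ℕ) (cl : ℕ → ℕ) (hcl : ∀ i, i < M → cl i < d) (φ : Finset ℕ → Bool)
    (hφ : ∀ U U' : Finset ℕ, U ⊆ range M → U' ⊆ range M →
      (∀ j, j < d → (U.filter (fun i => cl i = j)).card = (U'.filter (fun i => cl i = j)).card) → φ U = φ U')
    (V V' : Finset ℕ) (hV : V ⊆ range M) (hV' : V' ⊆ range M)
    (h : ∑ i ∈ V, ((M : ℝ) + 1) ^ cl i = ∑ i ∈ V', ((M : ℝ) + 1) ^ cl i) : φ V = φ V' := by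
  have h1 : ∑ i ∈ V, (M + 1) ^ cl i = ∑ i ∈ V', (M + 1) ^ cl i := by exact_mod_cast h
  rw [MEn_sum d M cl hcl V hV, MEn_sum d M cl hcl V' hV'] at h1
  have hc : ∀ W : Finset ℕ, W ⊆ range M → ∀ j, (W.filter (fun i => cl i = j)).card ≤ M := by
    intro W hW j
    calc (W.filter (fun i => cl i = j)).card ≤ W.card := Finset.card_filter_le _ _
      _ ≤ (range M).card := Finset.card_le_card hW
      _ = M := Finset.card_range M
  exact hφ V V' hV hV' (MEn_dig M d _ _ (hc V hV) (hc V' hV') h1)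

open Classical in
private theorem MEn_main (h1 : S_MGi) (h2 : S_MCo) (d M : ℕ) (cl : ℕ → ℕ) (φ : Finset ℕ → Bool)
    (p : ℕ → ℝ) (hd : 1 ≤ d) (hcl : ∀ i, i < M → cl i < d)
    (hφ : ∀ U U' : Finset ℕ, U ⊆ range M → U' ⊆ range M →
      (∀ j, j < d → (U.filter (fun i => cl i = j)).card = (U'.filter (fun i => cl i = j)).card) → φ U = φ U')
    (hp : ∀ i, 0 ≤ p i ∧ p i ≤ 1) : Hd (11200 + 4 * Real.log d) p M φ := by
  intro J U hJ hU
  obtain ⟨a, ha⟩ : ∃ a : ℕ → ℝ, ∀ i, a i = ((M : ℝ) + 1) ^ cl i := ⟨_, fun _ => rfl⟩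
  obtain ⟨F, hF⟩ : ∃ F : ℝ → ℝ, ∀ y, F y =
      if ∃ V, V ⊆ range M ∧ ∑ i ∈ V, a i = y ∧ φ V = true then -1 else 1 := ⟨_, fun _ => rfl⟩
  have hFv : ∀ y, F y = 1 ∨ F y = -1 := by
    intro y
    rw [hF]
    split_ifs
    · exact Or.inr rfl
    · exact Or.inl rfl
  have hFe : ∀ V, V ⊆ range M → F (∑ i ∈ V, a i) = if φ V then -1 else 1 := by
    intro V hV
    rw [hF]
    by_cases hv : φ V = true
    · rw [if_pos ⟨V, hV, rfl, hv⟩, if_pos hv]
    · rw [if_neg, if_neg hv]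
      rintro ⟨V', hV', hs, hv'⟩
      apply hv
      rw [← hv']
      simp only [ha] at hs
      exact MEn_eq d M cl hcl φ hφ V V' hV hV' hs.symm
  have hCo : ∀ T, T ⊆ J → Co tw p J T (Ph φ) (∑ i ∈ U, tw i) = Co a p J T F (∑ i ∈ U, a i) := by
    apply h2
    intro V hV
    have hdis : Disjoint U V := by
      rw [Finset.disjoint_left]
      intro i hi hiV
      exact (Finset.mem_sdiff.1 (hU hi)).2 (hV hiV)
    rw [← Finset.sum_union hdis, ← Finset.sum_union hdis, MEn_Ph, hFe]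
    intro i hi
    rcases Finset.mem_union.1 hi with h | h
    · exact (Finset.mem_sdiff.1 (hU h)).1
    · exact hJ (hV h)
  have e1 : Hs tw p J (Ph φ) (∑ i ∈ U, tw i) = Hs a p J F (∑ i ∈ U, a i) := by
    unfold Hs
    refine Finset.sum_congr rfl fun T hT => ?_
    rw [hCo T (Finset.mem_powerset.1 (Finset.mem_of_mem_erase hT))]
  have e2 : Ti tw p J (Ph φ) (∑ i ∈ U, tw i) = Ti a p J F (∑ i ∈ U, a i) := by
    unfold Ti
    refine Finset.sum_congr rfl fun T hT => ?_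
    rw [hCo T (Finset.mem_powerset.1 hT)]
  rw [e1, e2]
  exact h1 a p F d cl (fun j => ((M : ℝ) + 1) ^ j) J hd hp hFv
    (fun i hi => ⟨hcl i (Finset.mem_range.1 (hJ hi)), ha i⟩) _

theorem rMEn (h1 : S_MGi) (h2 : S_MCo) : S_MEn := by
  intro d M cl φ p hd hcl hφ hp
  exact MEn_main h1 h2 d M cl φ p hd hcl hφ hp

end Pool.Agent.MP3145b1.MS
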