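import Pool.Agent.Lib.MP_3145b1_co.MS.Spec

/-!
# MP_3145b1_co, project MS: the gate inequality for gates which are symmetric in `d` classes
-/

set_option autoImplicit false

namespace Pool.Agent.MP3145b1.MS

open Finset Pool.Agent.MP3145b1 Pool.Agent.MP3145b1.RC Pool.Agent.MP3145b1.RD Pool.Agent.MP3145b1.RT Pool.Agent.MP3145b1.UM Pool.Agent.MP3145b1.LD Pool.Agent.MP3145b1.AG

private noncomputable def MGi_ph (s : ℝ) : ℝ := s / (1 + s)

private noncomputable def MGi_Ph (p : ℕ → ℝ) (cl : ℕ → ℕ) (d : ℕ) (J : Finset ℕ) : ℝ :=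
  ∑ j ∈ range d, MGi_ph (AG.sg p (J.filter (fun i => cl i = j)))

private theorem MGi_sg_nonneg {p : ℕ → ℝ} (hp : ∀ i, 0 ≤ p i ∧ p i ≤ 1) (B : Finset ℕ) :
    0 ≤ AG.sg p B :=
  Finset.sum_nonneg fun i _ => mul_nonneg (hp i).1 (by linarith [(hp i).2])

private theorem MGi_ph_nonneg {s : ℝ} (hs : 0 ≤ s) : 0 ≤ MGi_ph s := by
  unfold MGi_ph
  positivity

private theorem MGi_ph_le {s : ℝ} (hs : 0 ≤ s) : MGi_ph s ≤ 1 := by
  unfold MGi_ph
  rw [div_le_one (by linarith)]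
  linarith

private theorem MGi_Ph_nonneg {p : ℕ → ℝ} (hp : ∀ i, 0 ≤ p i ∧ p i ≤ 1) (cl : ℕ → ℕ) (d : ℕ)
    (J : Finset ℕ) : 0 ≤ MGi_Ph p cl d J :=
  Finset.sum_nonneg fun _ _ => MGi_ph_nonneg (MGi_sg_nonneg hp _)

private theorem MGi_Ph_le {p : ℕ → ℝ} (hp : ∀ i, 0 ≤ p i ∧ p i ≤ 1) (cl : ℕ → ℕ) (d : ℕ)
    (J : Finset ℕ) : MGi_Ph p cl d J ≤ d := by
  unfold MGi_Ph
  refine (Finset.sum_le_sum fun j _ => MGi_ph_le (MGi_sg_nonneg hp _)).trans ?_
  simp

private theorem MGi_Ph_insert (p : ℕ → ℝ) (cl : ℕ → ℕ) (d : ℕ) (J : Finset ℕ) (t : ℕ) (ht : t ∉ J)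
    (hd : cl t < d) : MGi_Ph p cl d (insert t J) = MGi_Ph p cl d J +
      (MGi_ph (AG.sg p (J.filter (fun i => cl i = cl t)) + p t * (1 - p t)) -
        MGi_ph (AG.sg p (J.filter (fun i => cl i = cl t)))) := by
  have h : ∀ j ∈ range d, MGi_ph (AG.sg p ((insert t J).filter (fun i => cl i = j))) =
      MGi_ph (AG.sg p (J.filter (fun i => cl i = j))) + (if cl t = j then
        (MGi_ph (AG.sg p (J.filter (fun i => cl i = cl t)) + p t * (1 - p t)) -
          MGi_ph (AG.sg p (J.filter (fun i => cl i = cl t)))) else 0) := by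
    intro j _
    rw [Finset.filter_insert]
    by_cases hj : cl t = j
    · subst hj
      rw [if_pos rfl, if_pos rfl]
      have e : AG.sg p (insert t (J.filter (fun i => cl i = cl t))) =
          AG.sg p (J.filter (fun i => cl i = cl t)) + p t * (1 - p t) := by
        unfold AG.sg
        rw [Finset.sum_insert (fun h0 => ht (Finset.mem_filter.1 h0).1)]
        ring
      rw [e]
      ring
    · rw [if_neg hj, if_neg hj, add_zero]
  unfold MGi_Ph
  rw [Finset.sum_congr rfl h, Finset.sum_add_distrib, Finset.sum_ite_eq,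
    if_pos (Finset.mem_range.2 hd)]

private theorem MGi_step {v W X U2 Vi V0 V1 T0 T1 Ti' H0 H1 Hi D l P P' d s P0 A : ℝ}
    (hv : 0 ≤ v) (hd : 0 < d) (hs : 0 ≤ s) (hP0 : 0 ≤ P) (hP1 : P ≤ 1) (hPh : 0 ≤ P0)
    (hW : 0 ≤ W) (hX : X ≤ W) (hA : A = 7 * (1581 + l) + 2)
    (h1 : Hi ≤ P * H0 + (1 - P) * H1 + D + 8 * v * X)
    (h2 : D ≤ 28 * v * ((1581 + l) * W + 1 / (d * (1 + s) ^ 2) * U2))
    (h3 : Ti' = P * T0 + (1 - P) * T1 + 4 * v * W)
    (h4 : Vi = U2 + 4 * v * W) (h5 : P * V0 + (1 - P) * V1 ≤ Vi)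
    (h6 : v / (1 + s) ^ 2 ≤ 5 / 4 * P') (hU : 0 ≤ U2)
    (i0 : H0 ≤ A * T0 + 35 / d * P0 * V0) (i1 : H1 ≤ A * T1 + 35 / d * P0 * V1) :
    Hi ≤ A * Ti' + 35 / d * (P0 + P') * Vi := by
  have hVi : 0 ≤ Vi := by rw [h4]; positivity
  have hU2 : U2 ≤ Vi := by rw [h4]; linarith [mul_nonneg (mul_nonneg (by norm_num : (0:ℝ) ≤ 4) hv) hW]
  have a1 := mul_le_mul_of_nonneg_left i0 hP0
  have a2 := mul_le_mul_of_nonneg_left i1 (sub_nonneg.2 hP1)
  have a3 : 35 / d * P0 * (P * V0 + (1 - P) * V1) ≤ 35 / d * P0 * Vi :=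
    mul_le_mul_of_nonneg_left h5 (by positivity)
  have a4 : 28 * v * (1 / (d * (1 + s) ^ 2) * U2) ≤ 35 / d * P' * Vi := by
    have e1 : 28 * v * (1 / (d * (1 + s) ^ 2) * U2) = 28 / d * (v / (1 + s) ^ 2) * U2 := by
      have : (1 + s) ^ 2 ≠ 0 := by positivity
      field_simp
    rw [e1]
    have h7 : 0 ≤ v / (1 + s) ^ 2 := by positivity
    calc 28 / d * (v / (1 + s) ^ 2) * U2 ≤ 28 / d * (v / (1 + s) ^ 2) * Vi :=
          mul_le_mul_of_nonneg_left hU2 (by positivity)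
      _ ≤ 28 / d * (5 / 4 * P') * Vi := by
          refine mul_le_mul_of_nonneg_right (mul_le_mul_of_nonneg_left h6 (by positivity)) hVi
      _ = 35 / d * P' * Vi := by ring
  have a5 : 8 * v * X ≤ 8 * v * W := mul_le_mul_of_nonneg_left hX (by positivity)
  have a6 : 28 * v * ((1581 + l) * W) + 8 * v * W = A * (4 * v * W) := by rw [hA]; ring
  rw [h3]
  have a7 : P * (A * T0 + 35 / d * P0 * V0) + (1 - P) * (A * T1 + 35 / d * P0 * V1) =
      A * (P * T0 + (1 - P) * T1) + 35 / d * P0 * (P * V0 + (1 - P) * V1) := by ring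
  have a8 : A * (P * T0 + (1 - P) * T1 + 4 * v * W) + 35 / d * (P0 + P') * Vi =
      A * (P * T0 + (1 - P) * T1) + A * (4 * v * W) + 35 / d * P0 * Vi + 35 / d * P' * Vi := by ring
  rw [a8]
  have a9 : 28 * v * ((1581 + l) * W + 1 / (d * (1 + s) ^ 2) * U2) =
      28 * v * ((1581 + l) * W) + 28 * v * (1 / (d * (1 + s) ^ 2) * U2) := by ring
  linarith

private theorem MGi_claim (h1 : S_ARc) (h2 : S_MNd) (h3 : S_MPo) (h4 : S_MRc) (a p : ℕ → ℝ)
    (F : ℝ → ℝ) (d : ℕ) (cl : ℕ → ℕ) (α : ℕ → ℝ) (hd : 1 ≤ d) (hp : ∀ i, 0 ≤ p i ∧ p i ≤ 1)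
    (hF : ∀ y, F y = 1 ∨ F y = -1) (J : Finset ℕ) : (∀ i ∈ J, cl i < d ∧ a i = α (cl i)) → ∀ z : ℝ,
    Hs a p J F z ≤ (7 * (1581 + Real.log d / 2) + 2) * Ti a p J F z +
      35 / d * MGi_Ph p cl d J * Vv a p J F z := by
  induction J using Finset.induction_on with
  | empty =>
    intro _ z
    simp [Hs, Ti, Vv]
  | insert t J ht ih =>
    intro hJ z
    have ih' := ih fun i hi => hJ i (Finset.mem_insert_of_mem hi)
    obtain ⟨htd, hta⟩ := hJ t (Finset.mem_insert_self t J)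
    have hd' : (0 : ℝ) < d := by exact_mod_cast hd
    have hv : 0 ≤ p t * (1 - p t) := mul_nonneg (hp t).1 (by linarith [(hp t).2])
    have hv4 : p t * (1 - p t) ≤ 1 / 4 := by nlinarith [sq_nonneg (p t - 1 / 2)]
    have hs : 0 ≤ AG.sg p (J.filter (fun i => cl i = cl t)) := MGi_sg_nonneg hp _
    have hM : 1 ≤ Real.sqrt d := by
      rw [Real.one_le_sqrt]
      exact_mod_cast hd
    obtain ⟨r1, r2, r3⟩ := h4 a p J t F z ht hp
    have n1 := h2 a p J (J.filter (fun i => cl i = cl t)) t F z (Real.sqrt d) ht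
      (Finset.filter_subset _ _) (fun i hi => by
        obtain ⟨hi1, hi2⟩ := Finset.mem_filter.1 hi
        rw [(hJ i (Finset.mem_insert_of_mem hi1)).2, hi2, hta]) hp hF hM
    rw [Real.log_sqrt hd'.le, mul_pow, Real.sq_sqrt hd'.le] at n1
    have q1 := (h1 a p J t F z ht hp hF).1
    have hemp : (∅ : Finset ℕ) ∈ J.powerset := Finset.empty_mem_powerset J
    have hX : ∑ T ∈ J.powerset.erase ∅, wt p T * Co a p J T (hA (a t) F) z ^ 2 ≤
        ∑ T ∈ J.powerset, wt p T * Co a p J T (hA (a t) F) z ^ 2 :=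
      Finset.sum_le_sum_of_subset_of_nonneg (Finset.erase_subset _ _)
        fun T _ _ => mul_nonneg (wt_nonneg hp T) (sq_nonneg _)
    have hW : 0 ≤ ∑ T ∈ J.powerset, wt p T * Co a p J T (hA (a t) F) z ^ 2 :=
      Finset.sum_nonneg fun T _ => mul_nonneg (wt_nonneg hp T) (sq_nonneg _)
    have hU : 0 ≤ ∑ T ∈ J.powerset.erase ∅, wt p T * Co a p J T (gA (p t) (a t) F) z ^ 2 :=
      Finset.sum_nonneg fun T _ => mul_nonneg (wt_nonneg hp T) (sq_nonneg _)
    have m1 : p t * (1 - p t) / (1 + AG.sg p (J.filter (fun i => cl i = cl t))) ^ 2 ≤ 5 / 4 *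
        (MGi_ph (AG.sg p (J.filter (fun i => cl i = cl t)) + p t * (1 - p t)) -
          MGi_ph (AG.sg p (J.filter (fun i => cl i = cl t)))) := by
      unfold MGi_ph
      rw [← add_assoc]
      exact h3 _ _ hs hv hv4
    rw [MGi_Ph_insert p cl d J t ht htd]
    exact MGi_step (v := p t * (1 - p t)) hv hd' hs (hp t).1 (hp t).2 (MGi_Ph_nonneg hp cl d J)
      hW hX rfl q1 n1 r1 r2 r3 m1 hU (ih' z) (ih' (z + a t))

/-- The gate inequality. -/
theorem rMGi (h1 : S_ARc) (h2 : S_MNd) (h3 : S_MPo) (h4 : S_MRc) : S_MGi := by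
  intro a p F d cl α J hd hp hF hJ z
  have hd' : (0 : ℝ) < d := by exact_mod_cast hd
  have hc := MGi_claim h1 h2 h3 h4 a p F d cl α hd hp hF J hJ z
  have hlog : 0 ≤ Real.log d := Real.log_nonneg (by exact_mod_cast hd)
  have hV0 : 0 ≤ Vv a p J F z :=
    Finset.sum_nonneg fun T _ => mul_nonneg (wt_nonneg hp T) (sq_nonneg _)
  have hVT : Vv a p J F z ≤ Ti a p J F z := by
    unfold Vv Ti
    rw [← Finset.add_sum_erase J.powerset (fun T => (T.card : ℝ) * (wt p T * Co a p J T F z ^ 2))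
      (Finset.empty_mem_powerset J)]
    simp only [Finset.card_empty, Nat.cast_zero, zero_mul, zero_add]
    refine Finset.sum_le_sum fun T hT => ?_
    have hT' : T ≠ ∅ := Finset.ne_of_mem_erase hT
    have hc1 : (1 : ℝ) ≤ T.card := by
      exact_mod_cast Finset.card_pos.2 (Finset.nonempty_iff_ne_empty.2 hT')
    have hx : 0 ≤ wt p T * Co a p J T F z ^ 2 := mul_nonneg (wt_nonneg hp T) (sq_nonneg _)
    nlinarith
  have hb : 35 / d * MGi_Ph p cl d J * Vv a p J F z ≤ 35 * Ti a p J F z := by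
    have e1 : 35 / (d : ℝ) * MGi_Ph p cl d J ≤ 35 := by
      rw [div_mul_eq_mul_div, div_le_iff₀ hd']
      exact mul_le_mul_of_nonneg_left (MGi_Ph_le hp cl d J) (by norm_num)
    calc 35 / d * MGi_Ph p cl d J * Vv a p J F z ≤ 35 * Vv a p J F z :=
          mul_le_mul_of_nonneg_right e1 hV0
      _ ≤ 35 * Ti a p J F z := mul_le_mul_of_nonneg_left hVT (by norm_num)
  have hT0 : 0 ≤ Ti a p J F z := hV0.trans hVT
  have hl : Real.log d * Ti a p J F z * (7 / 2) ≤ Real.log d * Ti a p J F z * 4 :=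
    mul_le_mul_of_nonneg_left (by norm_num) (mul_nonneg hlog hT0)
  nlinarith

end Pool.Agent.MP3145b1.MS
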