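import Pool.Agent.Lib.MP_3145b1_co.MS.Spec

/-!
# MP_3145b1_co, project MS, module MNd: the node inequality
-/

set_option autoImplicit false

namespace Pool.Agent.MP3145b1.MS

open Finset Pool.Agent.MP3145b1 Pool.Agent.MP3145b1.RC Pool.Agent.MP3145b1.RD Pool.Agent.MP3145b1.RT Pool.Agent.MP3145b1.UM Pool.Agent.MP3145b1.LD Pool.Agent.MP3145b1.AG

private theorem MNd_abs {F : ℝ → ℝ} (hF : ∀ y, F y = 1 ∨ F y = -1) (A y : ℝ) :
    |hA A F y| = hA A F y ^ 2 := by
  unfold hA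
  rcases hF y with h | h <;> rcases hF (y + A) with h' | h' <;> rw [h, h'] <;> norm_num

private theorem MNd_av (a : ℕ → ℝ) {p : ℕ → ℝ} (hp : ∀ i, 0 ≤ p i ∧ p i ≤ 1) (G : Finset ℕ)
    {F : ℝ → ℝ} (hF : ∀ y, F y = 1 ∨ F y = -1) (A z : ℝ) :
    |Av a p G (hA A F) z| ≤ Av a p G (fun y => hA A F y ^ 2) z := by
  rw [abs_le]
  constructor
  · have h := Av_mono a hp G (F := fun y => -1 * hA A F y ^ 2) (G := hA A F) (fun y => by
      have h1 := neg_abs_le (hA A F y)
      rw [MNd_abs hF A y] at h1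
      linarith) z
    rw [Av_mul a p G (-1) (fun y => hA A F y ^ 2)] at h
    linarith
  · exact Av_mono a hp G (fun y => (le_abs_self _).trans (MNd_abs hF A y).le) z

/-- the sets which meet the block `B` -/
private theorem MNd_blk (h1 : S_TPar) (a : ℕ → ℝ) {p : ℕ → ℝ} (hp : ∀ i, 0 ≤ p i ∧ p i ≤ 1)
    {J B : Finset ℕ} (hB : B ⊆ J) {A q : ℝ} {F : ℝ → ℝ}
    (H : ∀ z, Av a p B (fun y => gA q A F y ^ 2) z - Av a p B (gA q A F) z ^ 2 ≤
      40 * Av a p B (fun y => hA A F y ^ 2) z) (z : ℝ) :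
    ∑ T ∈ J.powerset.filter (fun T => ¬ Disjoint T B), wt p T * Co a p J T (gA q A F) z ^ 2 ≤
      40 * Av a p J (fun y => hA A F y ^ 2) z := by
  rw [(h1 a p J B (gA q A F) z hB).2.2.1, Av_sdiff a p J B hB (fun y => hA A F y ^ 2) z, ← Av_mul]
  exact Av_mono a hp _ H z

/-- the sets which are disjoint from `G` -/
private theorem MNd_pre (h1 : S_TPar) (a : ℕ → ℝ) {p : ℕ → ℝ} (hp : ∀ i, 0 ≤ p i ∧ p i ≤ 1)
    {J G : Finset ℕ} (hG : G ⊆ J) {A : ℝ} {F : ℝ → ℝ} (hF : ∀ y, F y = 1 ∨ F y = -1) {c : ℝ}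
    (H : ∀ z, |Av a p G (hA A F) z| ≤ c) (z : ℝ) :
    ∑ T ∈ J.powerset.filter (fun T => Disjoint T G), wt p T * Co a p J T (hA A F) z ^ 2 ≤
      c * Av a p J (fun y => hA A F y ^ 2) z := by
  rw [(h1 a p J G (hA A F) z hG).2.1, Av_sdiff a p J G hG (fun y => hA A F y ^ 2) z, ← Av_mul]
  refine Av_mono a hp _ (fun y => ?_) z
  rw [← sq_abs, sq]
  exact mul_le_mul (H y) (MNd_av a hp G hF A y) (abs_nonneg _) ((abs_nonneg _).trans (H y))

private theorem MNd_ext (J : Finset ℕ) (P : Finset ℕ → Prop) [DecidablePred P]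
    (f : Finset ℕ → ℝ) {c : ℝ} (hc : 0 ≤ c) (hf : ∀ T, 0 ≤ f T) :
    ∑ T ∈ J.powerset.erase ∅, (if P T then c * f T else 0) ≤
      c * ∑ T ∈ J.powerset.filter P, f T := by
  rw [Finset.mul_sum, Finset.sum_filter]
  refine Finset.sum_le_sum_of_subset_of_nonneg (Finset.erase_subset _ _) fun T _ _ => ?_
  split_ifs
  · exact mul_nonneg hc (hf T)
  · exact le_rfl

private theorem MNd_vr (p : ℕ → ℝ) (B : Finset ℕ) : vr (fun _ => 1) p B = AG.sg p B := by
  unfold vr AG.sg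
  exact Finset.sum_congr rfl fun i _ => by ring

/-- the variance of the first `r` blocks -/
private theorem MNd_sum (p : ℕ → ℝ) (m : ℕ) (Bl : ℕ → Finset ℕ)
    (hdis : ∀ b b', b < m → b' < m → b ≠ b' → Disjoint (Bl b) (Bl b')) (r : ℕ) (hr : r ≤ m) :
    AG.sg p ((range r).biUnion Bl) = ∑ b ∈ range r, AG.sg p (Bl b) := by
  unfold AG.sg
  refine Finset.sum_biUnion ?_
  intro b hb b' hb' hne
  have hb1 : b < r := Finset.mem_range.1 hb
  have hb2 : b' < r := Finset.mem_range.1 hb'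
  exact hdis b b' (hb1.trans_le hr) (hb2.trans_le hr) hne

private theorem MNd_sg (p : ℕ → ℝ) (m : ℕ) (Bl : ℕ → Finset ℕ) (c : ℝ)
    (hdis : ∀ b b', b < m → b' < m → b ≠ b' → Disjoint (Bl b) (Bl b'))
    (hvr : ∀ b, b + 1 < m → c ≤ AG.sg p (Bl b)) (r : ℕ) (hr : r < m) :
    (r : ℝ) * c ≤ AG.sg p ((range r).biUnion Bl) := by
  rw [MNd_sum p m Bl hdis r hr.le]
  have h := Finset.card_nsmul_le_sum (range r) (fun b => AG.sg p (Bl b)) c fun b hb =>
    hvr b (lt_of_le_of_lt (Nat.succ_le_of_lt (Finset.mem_range.1 hb)) hr)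
  rwa [Finset.card_range, nsmul_eq_mul] at h

private theorem MNd_q {q : ℝ} : q * (1 - q) ≤ 1 / 4 := by nlinarith [sq_nonneg (q - 1 / 2)]

private theorem MNd_sg4 (p : ℕ → ℝ) (B : Finset ℕ) (h : B.card = 1 ∨ AG.sg p B ≤ 1 / 64) :
    AG.sg p B ≤ 1 / 4 := by
  rcases h with h | h
  · obtain ⟨i, rfl⟩ := Finset.card_eq_one.1 h
    unfold AG.sg
    rw [Finset.sum_singleton]
    exact MNd_q
  · linarith

private theorem MNd_sgle {p : ℕ → ℝ} (hp : ∀ i, 0 ≤ p i ∧ p i ≤ 1) (m : ℕ) (Bl : ℕ → Finset ℕ)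
    (C : Finset ℕ) (hdis : ∀ b b', b < m → b' < m → b ≠ b' → Disjoint (Bl b) (Bl b'))
    (hcov : ∀ i ∈ C, ∃ b, b < m ∧ i ∈ Bl b)
    (hab : ∀ b, b < m → ((Bl b).card = 1 ∨ AG.sg p (Bl b) ≤ 1 / 64)) :
    AG.sg p C ≤ (m : ℝ) / 4 := by
  have h1 : AG.sg p C ≤ AG.sg p ((range m).biUnion Bl) := by
    unfold AG.sg
    refine Finset.sum_le_sum_of_subset_of_nonneg ?_ fun i _ _ =>
      mul_nonneg (hp i).1 (by linarith [(hp i).2])
    intro i hi
    obtain ⟨b, hb, hib⟩ := hcov i hi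
    exact Finset.mem_biUnion.2 ⟨b, Finset.mem_range.2 hb, hib⟩
  rw [MNd_sum p m Bl hdis m le_rfl] at h1
  have h2 := Finset.sum_le_card_nsmul (range m) (fun b => AG.sg p (Bl b)) (1 / 4) fun b hb =>
    MNd_sg4 p (Bl b) (hab b (Finset.mem_range.1 hb))
  rw [Finset.card_range, nsmul_eq_mul] at h2
  linarith

private theorem MNd_log (n : ℕ) :
    Real.log ((n : ℝ) + 1) ≤ ∑ r ∈ range (n + 1), (if 1 ≤ r then (1 : ℝ) / r else 0) := by
  induction n with
  | zero => simp
  | succ n ih =>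
    rw [Finset.sum_range_succ, if_pos (by omega : 1 ≤ n + 1)]
    have h0 : (0 : ℝ) < (n : ℝ) + 1 := by positivity
    have h1 : Real.log (((n + 1 : ℕ) : ℝ) + 1) =
        Real.log ((n : ℝ) + 1) + Real.log (1 + 1 / ((n : ℝ) + 1)) := by
      rw [← Real.log_mul (by positivity) (by positivity)]
      congr 1
      push_cast
      field_simp
    have h2 : Real.log (1 + 1 / ((n : ℝ) + 1)) ≤ 1 / ((n : ℝ) + 1) := by
      have := Real.log_le_sub_one_of_pos (show 0 < 1 + 1 / ((n : ℝ) + 1) by positivity)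
      linarith
    rw [h1]
    have h3 : ((n + 1 : ℕ) : ℝ) = (n : ℝ) + 1 := by push_cast; ring
    rw [h3]
    linarith

private theorem MNd_logm (m : ℕ) :
    Real.log (max 1 (m : ℝ)) ≤ ∑ r ∈ range m, (if 1 ≤ r then (1 : ℝ) / r else 0) := by
  rcases Nat.eq_zero_or_pos m with h | h
  · subst h
    simp
  · obtain ⟨n, rfl⟩ := Nat.exists_eq_succ_of_ne_zero h.ne'
    have e : max 1 ((n.succ : ℕ) : ℝ) = (n : ℝ) + 1 := by
      rw [Nat.cast_succ]
      exact max_eq_right (by have := Nat.cast_nonneg (α := ℝ) n; linarith)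
    rw [e]
    exact MNd_log n

/-- the pointwise inequality -/
private theorem MNd_key (h1 : S_GTw) (h2 : S_ATl) (h5 : S_TPtw) (m : ℕ) (Bl : ℕ → Finset ℕ)
    (T : Finset ℕ) {q M : ℝ} (hq0 : 0 ≤ q) (hq1 : q ≤ 1) (hM : 1 ≤ M) (c0 c1 : ℝ) :
    dlp q c0 c1 ≤ 28 * (q * (1 - q)) * ((1 + Real.log M) * ((c0 - c1) / 2) ^ 2 +
      ∑ r ∈ range m, (if 1 ≤ r ∧ Disjoint T ((range r).biUnion Bl) then
        (1 : ℝ) / r * ((c0 - c1) / 2) ^ 2 else 0) +
      ∑ b ∈ range m, (if ¬ Disjoint T (Bl b) then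
        (1 : ℝ) / (b + 1) ^ 2 * (q * c0 + (1 - q) * c1) ^ 2 else 0) +
      1 / (8 * (M * max 1 (m : ℝ)) ^ 2) * (q * c0 + (1 - q) * c1) ^ 2) := by
  have hv : 0 ≤ 28 * (q * (1 - q)) := mul_nonneg (by norm_num) (mul_nonneg hq0 (by linarith))
  have hlM : 0 ≤ Real.log M := Real.log_nonneg hM
  set d := (c0 - c1) / 2 with hd
  set U := q * c0 + (1 - q) * c1 with hU
  have hd2 : 0 ≤ d ^ 2 := sq_nonneg d
  have hU2 : 0 ≤ U ^ 2 := sq_nonneg U
  have e0 : c0 - c1 = 2 * d := by rw [hd]; ring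
  have hm1 : (1 : ℝ) ≤ max 1 (m : ℝ) := le_max_left _ _
  have hMm : 1 ≤ M * max 1 (m : ℝ) := by nlinarith
  have hlast : 0 ≤ 1 / (8 * (M * max 1 (m : ℝ)) ^ 2) * U ^ 2 := by positivity
  by_cases hex : ∃ b, b < m ∧ ¬ Disjoint T (Bl b)
  · have h := h1 q c0 c1 hq0 hq1
    have h' := h5 m Bl T hex U d
    rw [← hU, e0] at h
    have e2 : 7 * (q * (1 - q) * (2 * d) ^ 2 * (1 + lg |U| (2 * d))) =
        28 * (q * (1 - q)) * (d ^ 2 + d ^ 2 * lg |U| (2 * d)) := by ring
    rw [e2] at h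
    refine h.trans (mul_le_mul_of_nonneg_left ?_ hv)
    have h3 : 0 ≤ Real.log M * d ^ 2 := mul_nonneg hlM hd2
    linarith
  · have hdj : ∀ b, b < m → Disjoint T (Bl b) := fun b hb => by
      by_contra hc
      exact hex ⟨b, hb, hc⟩
    have hΛ : 0 ≤ (M * max 1 (m : ℝ)) ^ 2 - 1 := by nlinarith
    have h := h2 q c0 c1 ((M * max 1 (m : ℝ)) ^ 2 - 1) hq0 hq1 hΛ
    have e1 : 1 + ((M * max 1 (m : ℝ)) ^ 2 - 1) = (M * max 1 (m : ℝ)) ^ 2 := by ring
    have e2 : Real.log ((M * max 1 (m : ℝ)) ^ 2) = 2 * (Real.log M + Real.log (max 1 (m : ℝ))) := by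
      rw [Real.log_pow, Real.log_mul (by linarith) (by linarith)]
      norm_num
    rw [e1, e2, ← hU, e0] at h
    have e3 : ∑ r ∈ range m, (if 1 ≤ r ∧ Disjoint T ((range r).biUnion Bl) then
        (1 : ℝ) / r * d ^ 2 else 0) =
        (∑ r ∈ range m, (if 1 ≤ r then (1 : ℝ) / r else 0)) * d ^ 2 := by
      rw [Finset.sum_mul]
      refine Finset.sum_congr rfl fun r hr => ?_
      have hrm : r < m := Finset.mem_range.1 hr
      have hD : Disjoint T ((range r).biUnion Bl) := by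
        rw [Finset.disjoint_biUnion_right]
        exact fun b hb => hdj b ((Finset.mem_range.1 hb).trans hrm)
      by_cases hr1 : 1 ≤ r
      · rw [if_pos ⟨hr1, hD⟩, if_pos hr1]
      · rw [if_neg (fun h => hr1 h.1), if_neg hr1, zero_mul]
    have e4 : 0 ≤ ∑ b ∈ range m, (if ¬ Disjoint T (Bl b) then
        (1 : ℝ) / (b + 1) ^ 2 * U ^ 2 else 0) := by
      refine Finset.sum_nonneg fun b _ => ?_
      split_ifs
      · exact le_rfl
      · positivity
    have e5 := mul_le_mul_of_nonneg_right (MNd_logm m) hd2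
    have e6 : 7 * (q * (1 - q)) * ((2 * d) ^ 2 *
        (1 + 2 * (Real.log M + Real.log (max 1 (m : ℝ))) / 2) + U ^ 2 / (2 * (M * max 1 (m : ℝ)) ^ 2)) =
        28 * (q * (1 - q)) * ((1 + Real.log M) * d ^ 2 + Real.log (max 1 (m : ℝ)) * d ^ 2 +
          1 / (8 * (M * max 1 (m : ℝ)) ^ 2) * U ^ 2) := by
      have hpos : (M * max 1 (m : ℝ)) ^ 2 ≠ 0 := by positivity
      field_simp
      ring
    rw [e6] at h
    refine h.trans (mul_le_mul_of_nonneg_left ?_ hv)
    rw [e3]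
    linarith

theorem rMNd (h1 : S_GTw) (h2 : S_ATl) (h3 : S_TPar) (h4 : S_TGrp) (h5 : S_TPtw) (h6 : S_TSrs)
    (h7 : S_MBl) (h8 : S_MSm) : S_MNd := by
  intro a p J C t F z M htJ hCJ hCa hp hF hM
  have hq0 := (hp t).1
  have hq1 := (hp t).2
  have hlM : 0 ≤ Real.log M := Real.log_nonneg hM
  have hv : 0 ≤ 28 * (p t * (1 - p t)) := mul_nonneg (by norm_num) (mul_nonneg hq0 (by linarith))
  have hWn : 0 ≤ ∑ T ∈ J.powerset, wt p T * Co a p J T (hA (a t) F) z ^ 2 :=
    Finset.sum_nonneg fun T _ => mul_nonneg (wt_nonneg hp T) (sq_nonneg _)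
  have hUn : 0 ≤ ∑ T ∈ J.powerset.erase ∅, wt p T * Co a p J T (gA (p t) (a t) F) z ^ 2 :=
    Finset.sum_nonneg fun T _ => mul_nonneg (wt_nonneg hp T) (sq_nonneg _)
  have hsC : 0 ≤ AG.sg p C := by
    unfold AG.sg
    exact Finset.sum_nonneg fun i _ => mul_nonneg (hp i).1 (by linarith [(hp i).2])
  by_cases hA0 : a t = 0
  · refine le_trans (Finset.sum_nonpos fun T _ => ?_) ?_
    · have h := h1 (p t) (Co a p J T F z) (Co a p J T F (z + a t)) hq0 hq1
      rw [hA0, add_zero] at h ⊢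
      rw [sub_self] at h
      have h0 : dlp (p t) (Co a p J T F z) (Co a p J T F z) ≤ 0 := by
        refine h.trans (le_of_eq ?_)
        ring
      exact mul_nonpos_of_nonneg_of_nonpos (wt_nonneg hp T) h0
    · refine mul_nonneg hv (add_nonneg (mul_nonneg (by linarith) hWn) (mul_nonneg ?_ hUn))
      positivity
  · set A := a t with hAe
    set q := p t with hq
    obtain ⟨m, Bl, hBl, hdis, hcov, hvr⟩ := h4 (fun _ => 1) p C 1 hp
    have hab : ∀ b, b < m → ((Bl b).card = 1 ∨ AG.sg p (Bl b) ≤ 1 / 64) := by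
      intro b hb
      rcases (hBl b hb).2 with h | h
      · exact Or.inl h
      · right
        rw [MNd_vr] at h
        linarith
    have hvr' : ∀ b, b + 1 < m → (1 : ℝ) / 128 ≤ AG.sg p (Bl b) := by
      intro b hb
      have h := hvr b hb
      rw [MNd_vr] at h
      linarith
    have hBa : ∀ b, b < m → ∀ i ∈ Bl b, a i = A := fun b hb i hi => hCa i ((hBl b hb).1 hi)
    set W := ∑ T ∈ J.powerset, wt p T * Co a p J T (hA A F) z ^ 2 with hW
    have hWA : Av a p J (fun y => hA A F y ^ 2) z = W := (h3 a p J ∅ (hA A F) z (Finset.empty_subset _)).1.symm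
    set V := ∑ T ∈ J.powerset.erase ∅, wt p T * Co a p J T (gA q A F) z ^ 2 with hV
    set m' : ℝ := max 1 (m : ℝ) with hm'
    -- pointwise
    have key : ∀ T ∈ J.powerset.erase ∅, wt p T * dlp q (Co a p J T F z) (Co a p J T F (z + A)) ≤
        28 * (q * (1 - q)) * ((1 + Real.log M) * (wt p T * Co a p J T (hA A F) z ^ 2) +
        ∑ r ∈ range m, (if 1 ≤ r ∧ Disjoint T ((range r).biUnion Bl) then
          (1 : ℝ) / r * (wt p T * Co a p J T (hA A F) z ^ 2) else 0) +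
        ∑ b ∈ range m, (if ¬ Disjoint T (Bl b) then
          (1 : ℝ) / (b + 1) ^ 2 * (wt p T * Co a p J T (gA q A F) z ^ 2) else 0) +
        1 / (8 * (M * m') ^ 2) * (wt p T * Co a p J T (gA q A F) z ^ 2)) := by
      intro T _
      have h := mul_le_mul_of_nonneg_left (MNd_key h1 h2 h5 m Bl T hq0 hq1 hM
        (Co a p J T F z) (Co a p J T F (z + A))) (wt_nonneg hp T)
      rw [← Co_hA, ← Co_gA] at h
      refine h.trans (le_of_eq ?_)
      have f1 : wt p T * ∑ r ∈ range m, (if 1 ≤ r ∧ Disjoint T ((range r).biUnion Bl) then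
          (1 : ℝ) / r * Co a p J T (hA A F) z ^ 2 else 0) =
          ∑ r ∈ range m, (if 1 ≤ r ∧ Disjoint T ((range r).biUnion Bl) then
          (1 : ℝ) / r * (wt p T * Co a p J T (hA A F) z ^ 2) else 0) := by
        rw [Finset.mul_sum]
        refine Finset.sum_congr rfl fun r _ => ?_
        split_ifs
        · ring
        · rw [mul_zero]
      have f2 : wt p T * ∑ b ∈ range m, (if ¬ Disjoint T (Bl b) then
          (1 : ℝ) / (b + 1) ^ 2 * Co a p J T (gA q A F) z ^ 2 else 0) =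
          ∑ b ∈ range m, (if ¬ Disjoint T (Bl b) then
          (1 : ℝ) / (b + 1) ^ 2 * (wt p T * Co a p J T (gA q A F) z ^ 2) else 0) := by
        rw [Finset.mul_sum]
        refine Finset.sum_congr rfl fun b _ => ?_
        split_ifs <;> ring
      rw [← f1, ← f2]
      ring
    refine (Finset.sum_le_sum key).trans ?_
    rw [← Finset.mul_sum]
    refine mul_le_mul_of_nonneg_left ?_ hv
    rw [Finset.sum_add_distrib, Finset.sum_add_distrib, Finset.sum_add_distrib, ← Finset.mul_sum,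
      ← Finset.mul_sum]
    have e0 : ∑ T ∈ J.powerset.erase ∅, wt p T * Co a p J T (hA A F) z ^ 2 ≤ W :=
      Finset.sum_le_sum_of_subset_of_nonneg (Finset.erase_subset _ _) fun T _ _ =>
        mul_nonneg (wt_nonneg hp T) (sq_nonneg _)
    have e1 : ∑ T ∈ J.powerset.erase ∅, ∑ r ∈ range m,
        (if 1 ≤ r ∧ Disjoint T ((range r).biUnion Bl) then
          (1 : ℝ) / r * (wt p T * Co a p J T (hA A F) z ^ 2) else 0) ≤ 1500 * W := by
      rw [Finset.sum_comm]
      have h9 : ∀ r ∈ range m, (∑ T ∈ J.powerset.erase ∅,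
          (if 1 ≤ r ∧ Disjoint T ((range r).biUnion Bl) then
            (1 : ℝ) / r * (wt p T * Co a p J T (hA A F) z ^ 2) else 0)) ≤
          (if 1 ≤ r then (1 : ℝ) / r * (500 / Real.sqrt r) else 0) * W := by
        intro r hrm
        have hrm' : r < m := Finset.mem_range.1 hrm
        by_cases hr : 1 ≤ r
        · have hGC : (range r).biUnion Bl ⊆ C := by
            intro i hi
            obtain ⟨b, hb, hib⟩ := Finset.mem_biUnion.1 hi
            exact (hBl b ((Finset.mem_range.1 hb).trans hrm')).1 hib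
          have hv' := MNd_sg p m Bl (1 / 128) hdis hvr' r hrm'
          have hv2 : (r : ℝ) / 128 ≤ AG.sg p ((range r).biUnion Bl) := by linarith
          have h10 := MNd_pre h3 a hp (hGC.trans hCJ) hF
            (fun y => h8 a p _ A F y r hA0 (fun i hi => hCa i (hGC hi)) hp hF hr hv2) z
          rw [hWA] at h10
          have h11 := MNd_ext J (fun T => Disjoint T ((range r).biUnion Bl))
            (fun T => wt p T * Co a p J T (hA A F) z ^ 2) (c := (1 : ℝ) / r) (by positivity)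
            (fun T => mul_nonneg (wt_nonneg hp T) (sq_nonneg _))
          have h12 : (0 : ℝ) ≤ 1 / r := by positivity
          rw [if_pos hr, mul_assoc]
          simp only [hr, true_and]
          exact h11.trans (mul_le_mul_of_nonneg_left h10 h12)
        · rw [if_neg hr, zero_mul]
          refine le_of_eq (Finset.sum_eq_zero fun T _ => if_neg fun h => hr h.1)
      refine (Finset.sum_le_sum h9).trans ?_
      rw [← Finset.sum_mul]
      exact mul_le_mul_of_nonneg_right (h6 m).2 hWn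
    have e2 : ∑ T ∈ J.powerset.erase ∅, ∑ b ∈ range m,
        (if ¬ Disjoint T (Bl b) then
          (1 : ℝ) / (b + 1) ^ 2 * (wt p T * Co a p J T (gA q A F) z ^ 2) else 0) ≤ 80 * W := by
      rw [Finset.sum_comm]
      have h9 : ∀ b ∈ range m, (∑ T ∈ J.powerset.erase ∅, (if ¬ Disjoint T (Bl b) then
          (1 : ℝ) / (b + 1) ^ 2 * (wt p T * Co a p J T (gA q A F) z ^ 2) else 0)) ≤
          (1 : ℝ) / (b + 1) ^ 2 * (40 * W) := by
        intro b hb
        have hbm := Finset.mem_range.1 hb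
        have hbC := (hBl b hbm).1
        have h10 := MNd_blk h3 a hp (hbC.trans hCJ) (A := A) (q := q) (F := F)
          (fun y => h7 a p (Bl b) A q F y hA0 (hBa b hbm) hp (hab b hbm) hq0 hq1 hF) z
        rw [hWA] at h10
        have h11 := MNd_ext J (fun T => ¬ Disjoint T (Bl b))
          (fun T => wt p T * Co a p J T (gA q A F) z ^ 2) (c := (1 : ℝ) / (b + 1) ^ 2)
          (by positivity) (fun T => mul_nonneg (wt_nonneg hp T) (sq_nonneg _))
        have h12 : (0 : ℝ) ≤ 1 / (b + 1) ^ 2 := by positivity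
        exact h11.trans (mul_le_mul_of_nonneg_left h10 h12)
      refine (Finset.sum_le_sum h9).trans ?_
      rw [← Finset.sum_mul]
      have h13 := mul_le_mul_of_nonneg_right (h6 m).1 (by positivity : (0 : ℝ) ≤ 40 * W)
      linarith
    have e3 : 1 / (8 * (M * m') ^ 2) ≤ 1 / (M * (1 + AG.sg p C)) ^ 2 := by
      have hs := MNd_sgle hp m Bl C hdis hcov hab
      have g1 : (1 : ℝ) ≤ m' := le_max_left _ _
      have g2 : (m : ℝ) ≤ m' := le_max_right _ _
      have g3 : 1 + AG.sg p C ≤ 5 / 4 * m' := by linarith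
      have g4 : M * (1 + AG.sg p C) ≤ M * (5 / 4 * m') := mul_le_mul_of_nonneg_left g3 (by linarith)
      have g5 : 0 < M * (1 + AG.sg p C) := mul_pos (by linarith) (by linarith)
      have g6 : (M * (1 + AG.sg p C)) ^ 2 ≤ 8 * (M * m') ^ 2 := by
        have g7 := pow_le_pow_left₀ g5.le g4 2
        have g8 : 0 ≤ (M * m') ^ 2 := sq_nonneg _
        have g9 : (M * (5 / 4 * m')) ^ 2 = 25 / 16 * (M * m') ^ 2 := by ring
        linarith
      exact one_div_le_one_div_of_le (by positivity) g6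
    have e4 := mul_le_mul_of_nonneg_right e3 hUn
    have e5 := mul_le_mul_of_nonneg_left e0 (by linarith : 0 ≤ 1 + Real.log M)
    linarith

end Pool.Agent.MP3145b1.MS
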