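import Pool.Agent.Lib.MP_3145b1_co.MS.Spec

/-!
# MP_3145b1_co, project MS, module MPo: the potential
-/

set_option autoImplicit false

namespace Pool.Agent.MP3145b1.MS

theorem rMPo : S_MPo := by
  intro s v hs hv hv4
  have h1 : (0 : ℝ) < 1 + s := by linarith
  have h2 : (0 : ℝ) < 1 + s + v := by linarith
  have e : 5 / 4 * ((s + v) / (1 + s + v) - s / (1 + s)) = 5 / 4 * v / ((1 + s) * (1 + s + v)) := by
    field_simp
    ring
  rw [e, div_le_div_iff₀ (by positivity) (by positivity)]
  have h3 : 0 ≤ v * (1 + s) := by positivity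
  nlinarith [mul_nonneg h3 (sub_nonneg.2 hv4), mul_nonneg h3 hs]

end Pool.Agent.MP3145b1.MS
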