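import Pool.Agent.Lib.MP_3145b1_co.MS.Spec

/-!
# MP_3145b1_co, project MS: one more variable
-/

set_option autoImplicit false

namespace Pool.Agent.MP3145b1.MS

open Finset Pool.Agent.MP3145b1 Pool.Agent.MP3145b1.RC Pool.Agent.MP3145b1.RD Pool.Agent.MP3145b1.RT Pool.Agent.MP3145b1.UM Pool.Agent.MP3145b1.LD Pool.Agent.MP3145b1.AG

private theorem MRc_sum (J : Finset ℕ) (i : ℕ) (hi : i ∉ J) (φ : Finset ℕ → ℝ) :
    ∑ T ∈ (insert i J).powerset.erase ∅, φ T =
      ∑ T ∈ J.powerset.erase ∅, φ T + ∑ T ∈ J.powerset, φ (insert i T) := by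
  have h1 := Finset.add_sum_erase (insert i J).powerset φ (Finset.empty_mem_powerset _)
  have h2 := Finset.add_sum_erase J.powerset φ (Finset.empty_mem_powerset _)
  rw [Finset.sum_powerset_insert hi] at h1
  linarith

theorem rMRc : S_MRc := by
  intro a p J i F z hi hp
  have hemp : (∅ : Finset ℕ) ∈ J.powerset := Finset.empty_mem_powerset J
  have hv : 0 ≤ p i * (1 - p i) := mul_nonneg (hp i).1 (by linarith [(hp i).2])
  have hwt0 : wt p ∅ = 1 := by unfold wt; simp
  have hne : ∀ T ∈ J.powerset, i ∉ T := fun T hT h0 => hi (Finset.mem_powerset.1 hT h0)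
  have h1 : ∀ T ∈ J.powerset, Co a p (insert i J) T F z =
      p i * Co a p J T F z + (1 - p i) * Co a p J T F (z + a i) := fun T hT =>
    Co_insert_not a p J T i hi (Finset.mem_powerset.1 hT) F z
  have h2 : ∀ T ∈ J.powerset, Co a p (insert i J) (insert i T) F z =
      (Co a p J T F z - Co a p J T F (z + a i)) / 2 := fun T hT =>
    Co_insert_mem a p J T i hi (Finset.mem_powerset.1 hT) F z
  have h3 : Vv a p (insert i J) F z =
      ∑ T ∈ J.powerset.erase ∅, wt p T * Co a p J T (gA (p i) (a i) F) z ^ 2 +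
      4 * (p i * (1 - p i)) * ∑ T ∈ J.powerset, wt p T * Co a p J T (hA (a i) F) z ^ 2 := by
    unfold Vv
    rw [MRc_sum J i hi, Finset.mul_sum]
    congr 1
    · refine Finset.sum_congr rfl fun T hT => ?_
      rw [h1 T (Finset.mem_of_mem_erase hT), Co_gA]
    · refine Finset.sum_congr rfl fun T hT => ?_
      rw [h2 T hT, wt_insert p T i (hne T hT), Co_hA]
      ring
  refine ⟨?_, h3, ?_⟩
  · unfold Ti
    rw [Finset.sum_powerset_insert hi, Finset.mul_sum, Finset.mul_sum, Finset.mul_sum,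
      ← Finset.sum_add_distrib, ← Finset.sum_add_distrib, ← Finset.sum_add_distrib]
    refine Finset.sum_congr rfl fun T hT => ?_
    rw [h1 T hT, h2 T hT, wt_insert p T i (hne T hT), Co_hA,
      Finset.card_insert_of_notMem (hne T hT)]
    push_cast
    ring
  · rw [h3, ← Finset.add_sum_erase J.powerset (fun T => wt p T * Co a p J T (hA (a i) F) z ^ 2) hemp]
    have h4 : p i * Vv a p J F z + (1 - p i) * Vv a p J F (z + a i) =
        ∑ T ∈ J.powerset.erase ∅, wt p T * Co a p J T (gA (p i) (a i) F) z ^ 2 +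
        4 * (p i * (1 - p i)) * ∑ T ∈ J.powerset.erase ∅, wt p T * Co a p J T (hA (a i) F) z ^ 2 := by
      unfold Vv
      rw [Finset.mul_sum, Finset.mul_sum, Finset.mul_sum, ← Finset.sum_add_distrib,
        ← Finset.sum_add_distrib]
      refine Finset.sum_congr rfl fun T _ => ?_
      rw [Co_gA, Co_hA]
      ring
    rw [h4]
    have h5 : 0 ≤ 4 * (p i * (1 - p i)) * (wt p ∅ * Co a p J ∅ (hA (a i) F) z ^ 2) :=
      mul_nonneg (by linarith) (mul_nonneg (wt_nonneg hp _) (sq_nonneg _))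
    have h6 : 4 * (p i * (1 - p i)) * (wt p ∅ * Co a p J ∅ (hA (a i) F) z ^ 2 +
        ∑ T ∈ J.powerset.erase ∅, wt p T * Co a p J T (hA (a i) F) z ^ 2) =
        4 * (p i * (1 - p i)) * (wt p ∅ * Co a p J ∅ (hA (a i) F) z ^ 2) +
        4 * (p i * (1 - p i)) * ∑ T ∈ J.powerset.erase ∅, wt p T * Co a p J T (hA (a i) F) z ^ 2 := by
      ring
    linarith [h5, h6]

end Pool.Agent.MP3145b1.MS
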