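import Pool.Agent.Lib.MP_3145b1_co.MS.Spec

set_option autoImplicit false

namespace Pool.Agent.MP3145b1.MS

open Finset Pool.Agent.MP3145b1 Pool.Agent.MP3145b1.RC Pool.Agent.MP3145b1.RD Pool.Agent.MP3145b1.RT Pool.Agent.MP3145b1.UM Pool.Agent.MP3145b1.LD Pool.Agent.MP3145b1.AG

private theorem MSm_scale (a p : ℕ → ℝ) (G : Finset ℕ) (A : ℝ) (F : ℝ → ℝ) (z : ℝ) (h0 : A ≠ 0)
    (ha : ∀ i ∈ G, a i = A) :
    Av a p G (hA A F) z = Av (fun _ => 1) p G (hA 1 (fun y => F (A * y))) (z / A) := by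
  unfold Av
  apply Finset.sum_congr rfl
  intro S hS
  have h1 : ∑ i ∈ S, a i = A * S.card := by
    rw [Finset.sum_congr rfl (fun i hi => ha i (Finset.mem_powerset.1 hS hi)), Finset.sum_const,
      nsmul_eq_mul, mul_comm]
  have h2 : ∑ _i ∈ S, (1 : ℝ) = S.card := by simp
  have h3 : hA A F (z + ∑ i ∈ S, a i) =
      hA 1 (fun y => F (A * y)) (z / A + ∑ _i ∈ S, (1 : ℝ)) := by
    rw [h1, h2]
    unfold hA
    have e1 : A * (z / A + (S.card : ℝ)) = z + A * S.card := by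
      field_simp
    have e2 : A * (z / A + (S.card : ℝ) + 1) = z + A * S.card + A := by
      field_simp
    show _ = (F (A * (z / A + (S.card : ℝ))) - F (A * (z / A + (S.card : ℝ) + 1))) / 2
    rw [e1, e2]
  rw [h3]

/-- small mean for equal weights -/
theorem rMSm (h1 : S_TSmS) : S_MSm := by
  intro a p G A F z r h0 ha hp hF hr hs
  rw [MSm_scale a p G A F z h0 ha]
  refine h1 (fun _ => 1) p G (fun y => F (A * y)) (z / A) r
    ⟨fun i _ => ⟨zero_le_one, le_refl _⟩, hp⟩ (fun i _ => rfl) (fun y => hF _) hr ?_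
  have h2 : vr (fun _ => 1) p G = AG.sg p G := by
    unfold vr AG.sg
    apply Finset.sum_congr rfl
    intro i _
    ring
  rw [h2]
  have h3 : (r : ℝ) * 1 ^ 2 / 128 = (r : ℝ) / 128 := by ring
  rw [h3]
  exact hs

end Pool.Agent.MP3145b1.MS
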