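import Pool.Agent.Lib.MP_3145b1_co.AG.Asm
import Pool.Agent.Lib.MP_3145b1_co.MS.MBl
import Pool.Agent.Lib.MP_3145b1_co.MS.MSm
import Pool.Agent.Lib.MP_3145b1_co.MS.MNd
import Pool.Agent.Lib.MP_3145b1_co.MS.MPo
import Pool.Agent.Lib.MP_3145b1_co.MS.MRc
import Pool.Agent.Lib.MP_3145b1_co.MS.MGi
import Pool.Agent.Lib.MP_3145b1_co.MS.MCo
import Pool.Agent.Lib.MP_3145b1_co.MS.MEn

/-!
# MP_3145b1_co, project MS: assembly
-/

set_option autoImplicit false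

namespace Pool.Agent.MP3145b1.MS

open Finset Pool.Agent.MP3145b1 Pool.Agent.MP3145b1.RC Pool.Agent.MP3145b1.RD Pool.Agent.MP3145b1.RT Pool.Agent.MP3145b1.UM Pool.Agent.MP3145b1.LD Pool.Agent.MP3145b1.AG

theorem mNd : S_MNd := rMNd (rGTw rMTg) aTl rTPar rTGrp rTPtw rTSrs (rMBl tBlS) (rMSm tSmS)

theorem mGi : S_MGi := rMGi aRc mNd rMPo rMRc

/-- gates which are symmetric in `d` classes of inputs -/
theorem mEn : S_MEn := rMEn mGi rMCo

end Pool.Agent.MP3145b1.MS
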