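import Pool.Agent.Lib.MP_3145b1_co.MS.Spec2

/-!
# MP_3145b1_co, project MS, module IFl: change of signs
-/

set_option autoImplicit false

namespace Pool.Agent.MP3145b1.MS

open Finset Pool.Agent.MP3145b1 Pool.Agent.MP3145b1.RC Pool.Agent.MP3145b1.RD Pool.Agent.MP3145b1.RT Pool.Agent.MP3145b1.UM Pool.Agent.MP3145b1.LD Pool.Agent.MP3145b1.AG

private theorem IFl_pn_neg (a p : ℕ → ℝ) (i : ℕ) (h : a i < 0) : pn a p i = 1 - p i := by
  unfold pn; rw [if_pos h]

private theorem IFl_pn_nn (a p : ℕ → ℝ) (i : ℕ) (h : ¬ a i < 0) : pn a p i = p i := by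
  unfold pn; rw [if_neg h]

private theorem IFl_key (a p : ℕ → ℝ) (F : ℝ → ℝ) (J : Finset ℕ) :
    ∀ (T : Finset ℕ), T ⊆ J → ∀ z : ℝ, Co a p J T F z =
      (-1) ^ (T.filter (fun i => a i < 0)).card *
        Co (fun i => |a i|) (pn a p) J T F (z + ∑ i ∈ J.filter (fun i => a i < 0), a i) := by
  induction J using Finset.induction_on with
  | empty =>
    intro T hT z
    have hT' : T = ∅ := Finset.subset_empty.1 hT
    subst hT'
    rw [Co_empty, Co_empty, Av_empty, Av_empty]
    simp
  | insert i J hi ih =>
    intro T hT z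
    have key : ∀ (T' : Finset ℕ), T' ⊆ J →
        (¬ a i < 0 → Co (fun i => |a i|) (pn a p) J T' F
            (z + ∑ j ∈ (insert i J).filter (fun i => a i < 0), a j) =
          Co (fun i => |a i|) (pn a p) J T' F (z + ∑ j ∈ J.filter (fun i => a i < 0), a j)) ∧
        (¬ a i < 0 → Co (fun i => |a i|) (pn a p) J T' F
            (z + ∑ j ∈ (insert i J).filter (fun i => a i < 0), a j + |a i|) =
          Co (fun i => |a i|) (pn a p) J T' F (z + a i + ∑ j ∈ J.filter (fun i => a i < 0), a j)) ∧
        (a i < 0 → Co (fun i => |a i|) (pn a p) J T' F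
            (z + ∑ j ∈ (insert i J).filter (fun i => a i < 0), a j) =
          Co (fun i => |a i|) (pn a p) J T' F (z + a i + ∑ j ∈ J.filter (fun i => a i < 0), a j)) ∧
        (a i < 0 → Co (fun i => |a i|) (pn a p) J T' F
            (z + ∑ j ∈ (insert i J).filter (fun i => a i < 0), a j + |a i|) =
          Co (fun i => |a i|) (pn a p) J T' F (z + ∑ j ∈ J.filter (fun i => a i < 0), a j)) := by
      intro T' hT'
      refine ⟨fun h => ?_, fun h => ?_, fun h => ?_, fun h => ?_⟩
      · rw [Finset.filter_insert, if_neg h]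
      · rw [Finset.filter_insert, if_neg h, abs_of_nonneg (not_lt.1 h)]
        congr 1; ring
      · rw [Finset.filter_insert, if_pos h,
          Finset.sum_insert (fun h' => hi (Finset.mem_filter.1 h').1)]
        congr 1; ring
      · rw [Finset.filter_insert, if_pos h,
          Finset.sum_insert (fun h' => hi (Finset.mem_filter.1 h').1), abs_of_neg h]
        congr 1; ring
    by_cases hiT : i ∈ T
    · obtain ⟨T', hiT', rfl⟩ : ∃ T', i ∉ T' ∧ T = insert i T' :=
        ⟨T.erase i, Finset.notMem_erase i T, (Finset.insert_erase hiT).symm⟩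
      have hT' : T' ⊆ J := by
        intro j hj
        rcases Finset.mem_insert.1 (hT (Finset.mem_insert_of_mem hj)) with h | h
        · exact absurd (h ▸ hj) hiT'
        · exact h
      obtain ⟨k1, k2, k3, k4⟩ := key T' hT'
      rw [Co_insert_mem a p J T' i hi hT', Co_insert_mem _ _ J T' i hi hT', ih T' hT' z,
        ih T' hT' (z + a i)]
      by_cases h : a i < 0
      · rw [k3 h]
        have k4' := k4 h
        rw [k4', Finset.filter_insert, if_pos h,
          Finset.card_insert_of_notMem (fun h' => hiT' (Finset.mem_filter.1 h').1), pow_succ]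
        ring
      · rw [k1 h]
        have k2' := k2 h
        rw [k2', Finset.filter_insert, if_neg h]
        ring
    · have hT' : T ⊆ J := by
        intro j hj
        rcases Finset.mem_insert.1 (hT hj) with h | h
        · exact absurd (h ▸ hj) hiT
        · exact h
      obtain ⟨k1, k2, k3, k4⟩ := key T hT'
      rw [Co_insert_not a p J T i hi hT', Co_insert_not _ _ J T i hi hT', ih T hT' z,
        ih T hT' (z + a i)]
      by_cases h : a i < 0
      · rw [k3 h]
        have k4' := k4 h
        rw [k4', IFl_pn_neg a p i h]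
        ring
      · rw [k1 h]
        have k2' := k2 h
        rw [k2', IFl_pn_nn a p i h]
        ring

/-- **IFl** (change of signs). -/
theorem rIFl : S_IFl := by
  intro a p J T hT
  refine ⟨fun F z => ?_, ?_⟩
  · rw [IFl_key a p F J T hT z, mul_pow, ← pow_mul, mul_comm (Finset.card _) 2, pow_mul]
    simp
  · unfold wt
    refine Finset.prod_congr rfl fun i _ => ?_
    by_cases h : a i < 0
    · rw [IFl_pn_neg a p i h]; ring
    · rw [IFl_pn_nn a p i h]

end Pool.Agent.MP3145b1.MS
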