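import Pool.Agent.Lib.MP_3145b1_co.MS.Spec2

/-!
IHd (functions of a linear form with m jumps as gates), module of the project MS (MP_3145b1_co).
-/

set_option autoImplicit false

namespace Pool.Agent.MP3145b1.MS

open Finset Pool.Agent.MP3145b1 Pool.Agent.MP3145b1.RC Pool.Agent.MP3145b1.RD Pool.Agent.MP3145b1.RT Pool.Agent.MP3145b1.UM Pool.Agent.MP3145b1.LD Pool.Agent.MP3145b1.AG

private theorem IHd_Ph (φ : Finset ℕ → Bool) (V : Finset ℕ) :
    AG.Ph φ (∑ i ∈ V, tw i) = if φ V then (-1 : ℝ) else 1 := by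
  have e : ∑ i ∈ V, tw i = ((∑ i ∈ V, 2 ^ i : ℕ) : ℝ) := by
    push_cast
    exact Finset.sum_congr rfl fun i _ => rfl
  rw [AG.Ph, e, Nat.floor_natCast, Finset.toFinset_bitIndices_sum_two_pow]

private theorem IHd_pn {a p : ℕ → ℝ} (hp : ∀ i, 0 ≤ p i ∧ p i ≤ 1) (i : ℕ) : 0 ≤ pn a p i ∧ pn a p i ≤ 1 := by
  unfold pn
  split_ifs
  · exact ⟨by linarith [(hp i).2], by linarith [(hp i).1]⟩
  · exact hp i

theorem rIHd (h1 : S_MCo) (h2 : S_IFl) (h3 : UI.S_UGI) : S_IHd := by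
  intro m M a p F Θ z φ hp hF hΘ hφ J U hJ hU
  have hval : ∀ U', U' ⊆ J → AG.Ph φ (∑ i ∈ U, tw i + ∑ i ∈ U', tw i) = F (z + ∑ i ∈ U, a i + ∑ i ∈ U', a i) := by
    intro U' hU'
    have hd : Disjoint U U' := by
      rw [Finset.disjoint_left]
      intro i hi hi'
      exact (Finset.mem_sdiff.1 (hU hi)).2 (hU' hi')
    have hV : U ∪ U' ⊆ range M := by
      intro i hi
      rcases Finset.mem_union.1 hi with h | h
      · exact (Finset.mem_sdiff.1 (hU h)).1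
      · exact hJ (hU' h)
    have hs : z + ∑ i ∈ U, a i + ∑ i ∈ U', a i = z + ∑ i ∈ U ∪ U', a i := by
      rw [Finset.sum_union hd, add_assoc]
    rw [← Finset.sum_union hd, hs, IHd_Ph]
    have h4 := hφ (U ∪ U') hV
    by_cases h5 : φ (U ∪ U') = true
    · rw [if_pos h5, h4.1 h5]
    · rw [if_neg h5]
      rcases hF.1 (z + ∑ i ∈ U ∪ U', a i) with h6 | h6
      · exact h6.symm
      · exact absurd (h4.2 h6) h5
  obtain ⟨y, hy⟩ : ∃ y, y = z + ∑ i ∈ U, a i + ∑ i ∈ J.filter (fun i => a i < 0), a i := ⟨_, rfl⟩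
  have hCo : ∀ T, T ⊆ J → Co tw p J T (AG.Ph φ) (∑ i ∈ U, tw i) ^ 2 = Co (fun i => |a i|) (pn a p) J T F y ^ 2 := by
    intro T hT
    rw [h1 tw a p J (AG.Ph φ) F (∑ i ∈ U, tw i) (z + ∑ i ∈ U, a i) hval T hT, (h2 a p J T hT).1 F (z + ∑ i ∈ U, a i), hy]
  have hwt : ∀ T, T ⊆ J → wt p T = wt (pn a p) T := fun T hT => ((h2 a p J T hT).2).symm
  have hHs : Hs tw p J (AG.Ph φ) (∑ i ∈ U, tw i) = Hs (fun i => |a i|) (pn a p) J F y := by
    unfold Hs
    refine Finset.sum_congr rfl fun T hT => ?_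
    have hT' : T ⊆ J := Finset.mem_powerset.1 (Finset.mem_of_mem_erase hT)
    rw [hCo T hT', hwt T hT']
  have hTi : Ti tw p J (AG.Ph φ) (∑ i ∈ U, tw i) = Ti (fun i => |a i|) (pn a p) J F y := by
    unfold Ti
    refine Finset.sum_congr rfl fun T hT => ?_
    have hT' : T ⊆ J := Finset.mem_powerset.1 hT
    rw [hCo T hT', hwt T hT']
  rw [hHs, hTi]
  exact h3 (fun i => |a i|) (pn a p) J m F Θ (IHd_pn hp) (fun i _ => abs_nonneg _) hF hΘ y

end Pool.Agent.MP3145b1.MS
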