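import Pool.Agent.Lib.MP_3145b1_co.MS.Asm
import Pool.Agent.Lib.MP_3145b1_co.MS.IFl
import Pool.Agent.Lib.MP_3145b1_co.MS.IHd
import Pool.Agent.Lib.MP_3145b1_co.UI.UHar
import Pool.Agent.Lib.MP_3145b1_co.UI.UHd
import Pool.Agent.Lib.MP_3145b1_co.UI.UWin
import Pool.Agent.Lib.MP_3145b1_co.UI.USgl
import Pool.Agent.Lib.MP_3145b1_co.UI.UFar
import Pool.Agent.Lib.MP_3145b1_co.UI.ULev
import Pool.Agent.Lib.MP_3145b1_co.UI.UBlk
import Pool.Agent.Lib.MP_3145b1_co.UI.UPt1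
import Pool.Agent.Lib.MP_3145b1_co.UI.UPt2
import Pool.Agent.Lib.MP_3145b1_co.UI.USml
import Pool.Agent.Lib.MP_3145b1_co.UI.UNod
import Pool.Agent.Lib.MP_3145b1_co.UI.UTel
import Pool.Agent.Lib.MP_3145b1_co.UI.UInf
import Pool.Agent.Lib.MP_3145b1_co.UI.UChg
import Pool.Agent.Lib.MP_3145b1_co.UI.UCls
import Pool.Agent.Lib.MP_3145b1_co.UI.USmc
import Pool.Agent.Lib.MP_3145b1_co.UI.UGat
import Pool.Agent.Lib.MP_3145b1_co.UI.UEn
import Pool.Agent.Lib.MP_3145b1_co.UI.UTrf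
import Pool.Agent.Lib.MP_3145b1_co.UI.UGI

/-!
# MP_3145b1_co, project MS, part 2: assembly (with project UI up to S_UGI)
-/

set_option autoImplicit false

namespace Pool.Agent.MP3145b1.MS

open Finset Pool.Agent.MP3145b1 Pool.Agent.MP3145b1.RC Pool.Agent.MP3145b1.RD Pool.Agent.MP3145b1.RT Pool.Agent.MP3145b1.UM Pool.Agent.MP3145b1.LD Pool.Agent.MP3145b1.AG

theorem uWin : UI.S_UWin := UI.rUWin UI.rUHd

theorem uBlk : UI.S_UBlk := UI.rUBlk rTPar (UI.rUSgl uWin) (UI.rUFar tPos uWin) UI.rULev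

theorem uNod : UI.S_UNod :=
  UI.rUNod rTPar rTPtw (UI.rUPt1 rTPar (UI.rUSml tEsn) UI.rULev UI.rUHar) (UI.rUPt2 rTSrs uBlk)

theorem uGat : UI.S_UGat :=
  UI.rUGat uNod (UI.rUTel (rGTw rMTg)) (UI.rUInf rTPar) (UI.rUChg rTPar) (UI.rUSmc UI.rULev UI.rUCls)

theorem uGI : UI.S_UGI := UI.rUGI UI.rUEn UI.rUTrf uGat

/-- functions of a linear form with `m` jumps satisfy the condition of (gen) -/
theorem iHd : S_IHd := rIHd rMCo rIFl uGI

end Pool.Agent.MP3145b1.MS
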