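import Pool.Agent.Lib.MP_3145b1_co.AG.Spec2

/-!
# MP_3145b1_co, project MS (architect helper45): gates which are symmetric in `d` classes of inputs

THEOREM. Every Boolean function of the `d` numbers `N_j` of the true bits of the class `j` (any classes, any number of independent biased bits) satisfies, with all
its restrictions, the plain entropy inequality with the constant `11200 + 4 log d` (`Hd`), so it is a gate (gen) of the classes `RH`, `UH` of AG/Spec2.lean.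
The proof is the proof of RT for `T` which meet the class of the variable `t`; for the other `T ≠ ∅` one pays `U_T^2/(d (1 + s)^2)`, `s` = variance of the class, and the
sum of these terms is at most the variance.

RULES. Module X: file Pool/Agent/Lib/MP_3145b1_co/MS/X.lean, `import Pool.Agent.Lib.MP_3145b1_co.MS.Spec`,
`set_option autoImplicit false`, `namespace Pool.Agent.MP3145b1.MS`,
`open Finset Pool.Agent.MP3145b1 Pool.Agent.MP3145b1.RC Pool.Agent.MP3145b1.RD Pool.Agent.MP3145b1.RT Pool.Agent.MP3145b1.UM Pool.Agent.MP3145b1.LD Pool.Agent.MP3145b1.AG`, final theorem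
`theorem rX (h1 : S_A) ... : S_X` (the statements under Uses, in this order, are the hypotheses; `S_GTw` is in RD/Spec.lean, `S_T..` in RT/Spec.lean, `S_A..` in AG/Spec.lean).
Auxiliary lemmas private, names X_. Write `AG.sg` for `sg` of AG/Spec.lean (the name sg is ambiguous). READ FIRST: RT/Def.lean, AG/Spec.lean (Hs, sg), AG/Spec2.lean (Ti, Ph, Hd).
Notation in the proofs (as in AG/Spec.lean): `v = p t (1 - p t)`, `U T = Co a p J T (gA (p t) (a t) F) z`, `Om T = Co a p J T (hA (a t) F) z = (c0 - c1)/2`, `W = ∑_{T ⊆ J} wt (Om T)^2 = Av J ((hA (a t) F)^2) z`.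
-/

set_option autoImplicit false

namespace Pool.Agent.MP3145b1.MS

open Finset Pool.Agent.MP3145b1 Pool.Agent.MP3145b1.RC Pool.Agent.MP3145b1.RD Pool.Agent.MP3145b1.RT Pool.Agent.MP3145b1.UM Pool.Agent.MP3145b1.LD Pool.Agent.MP3145b1.AG

/-- variance for the product measure -/
noncomputable def Vv (a p : ℕ → ℝ) (J : Finset ℕ) (F : ℝ → ℝ) (z : ℝ) : ℝ :=
  ∑ T ∈ J.powerset.erase ∅, wt p T * Co a p J T F z ^ 2

/-- **MBl** (block inequality for equal weights). Uses: S_TBlS.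
Proof. Scaling: if `a i = A` for `i ∈ B`, `A ≠ 0`, then `Av a p B G z = Av (fun _ => 1) p B (fun y => G (A * y)) (z / A)` (unfold Av, `∑ i ∈ S, a i = A * S.card`). `gA q A F (A * y) = gA q 1 (fun y => F (A * y)) y`, the same for `hA`. S_TBlS with `a = fun _ => 1` (`vr = sg`), the function `fun y => F (A * y)` and the point `z / A`. -/
def S_MBl : Prop := ∀ (a p : ℕ → ℝ) (B : Finset ℕ) (A q : ℝ) (F : ℝ → ℝ) (z : ℝ), A ≠ 0 → (∀ i ∈ B, a i = A) →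
  (∀ i, 0 ≤ p i ∧ p i ≤ 1) → (B.card = 1 ∨ AG.sg p B ≤ 1 / 64) → 0 ≤ q → q ≤ 1 → (∀ y, F y = 1 ∨ F y = -1) →
  Av a p B (fun y => gA q A F y ^ 2) z - Av a p B (gA q A F) z ^ 2 ≤ 40 * Av a p B (fun y => hA A F y ^ 2) z

/-- **MSm** (small mean for equal weights). Uses: S_TSmS. Proof: scaling as in MBl. -/
def S_MSm : Prop := ∀ (a p : ℕ → ℝ) (G : Finset ℕ) (A : ℝ) (F : ℝ → ℝ) (z : ℝ) (r : ℕ), A ≠ 0 → (∀ i ∈ G, a i = A) →
  (∀ i, 0 ≤ p i ∧ p i ≤ 1) → (∀ y, F y = 1 ∨ F y = -1) → 1 ≤ r → (r : ℝ) / 128 ≤ AG.sg p G →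
  |Av a p G (hA A F) z| ≤ 500 / Real.sqrt r

/-- **MNd** (node inequality; `C` = the variables of `J` with the same weight as `t`). Uses: S_GTw, S_ATl, S_TPar, S_TGrp, S_TPtw, S_TSrs, S_MBl, S_MSm. MODEL: RT/TSml.lean.
Proof. `a t = 0`: `hA 0 F = 0`, all `Om T = 0`, `c0 = c1`, S_GTw gives `dlp ≤ 0`. Let `A = a t ≠ 0`. Blocks `Bl b`, `b < m` of S_TGrp with the weights `fun _ => 1`, `A = 1`, `J = C` (`vr = sg`): `Bl b ⊆ C`, card `1` or `sg ≤ 1/64`, disjoint, they cover `C`, `1/128 ≤ sg (Bl b)` for `b + 1 < m`. `G_r = (range r).biUnion Bl`. (i) `T ⊆ J` meets `C`: it meets a block;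
S_GTw: `dlp ≤ 28 v Om^2 (1 + lg |U| (2 Om))` and S_TPtw. (ii) `T ≠ ∅`, `T ∩ C = ∅`: `m' = max 1 m`, S_ATl with `Λ = (M m')^2 - 1 ≥ 0`: `dlp ≤ 28 v (Om^2 (1 + log M + log m') + U^2/(8 (M m')^2))`, `log m' ≤ ∑_{1 ≤ r < m} 1/r` (induction), and `T` is disjoint from every `G_r`. So in both cases
`dlp ≤ 28 v (Om^2 (1 + log M) + ∑_{1 ≤ r < m, T disjoint from G_r} (1/r) Om^2 + ∑_{b < m, T meets Bl b} (b+1)^-2 U^2 + U^2/(8 (M m')^2))`. Sum over `T ≠ ∅` with the weights `wt T`, as in RT/TSml.lean: `∑_{T disjoint from G_r} wt Om^2 = Av (J \ G_r) ((Av G_r h)^2) ≤ (500/sqrt r) W` (S_MSm, `|h| = h^2`; `sg G_r ≥ r/128`), S_TSrs: `≤ 1500 W`;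
`∑_{T meets Bl b} wt U^2 ≤ 40 W` (S_TPar (3), S_MBl), S_TSrs: `≤ 80 W`. `1 + 1500 + 80 = 1581`. The last term: `sg p C = ∑_b sg (Bl b) ≤ m/4` (card 1: `sg ≤ 1/4`), so `m' ≥ max 1 (4 s) ≥ (4/5)(1 + s)` with `s = sg p C`, and `1/(8 (M m')^2) ≤ (25/128)/(M (1 + s))^2 ≤ 1/(M (1+s))^2`. -/
def S_MNd : Prop := ∀ (a p : ℕ → ℝ) (J C : Finset ℕ) (t : ℕ) (F : ℝ → ℝ) (z M : ℝ), t ∉ J → C ⊆ J → (∀ i ∈ C, a i = a t) →
  (∀ i, 0 ≤ p i ∧ p i ≤ 1) → (∀ y, F y = 1 ∨ F y = -1) → 1 ≤ M →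
  ∑ T ∈ J.powerset.erase ∅, wt p T * dlp (p t) (Co a p J T F z) (Co a p J T F (z + a t)) ≤
    28 * (p t * (1 - p t)) * ((1581 + Real.log M) * ∑ T ∈ J.powerset, wt p T * Co a p J T (hA (a t) F) z ^ 2 +
      1 / (M * (1 + AG.sg p C)) ^ 2 * ∑ T ∈ J.powerset.erase ∅, wt p T * Co a p J T (gA (p t) (a t) F) z ^ 2)

/-- **MPo** (potential). Uses: nothing.
Proof. The right side is `(5/4) v/((1+s)(1+s+v))` and `(5/4)(1+s) ≥ 1+s+v`. -/
def S_MPo : Prop := ∀ s v : ℝ, 0 ≤ s → 0 ≤ v → v ≤ 1 / 4 → v / (1 + s) ^ 2 ≤ 5 / 4 * ((s + v) / (1 + s + v) - s / (1 + s))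

/-- **MRc** (one more variable). Uses: nothing. MODEL: AG/ARc.lean, AG/ADc.lean.
Proof. For `T ⊆ J`: `Co (insert i J) T = U T`, `Co (insert i J) (insert i T) = Om T`, `wt (insert i T) = 4 v wt T`, `U^2 + 4 v Om^2 = p c0^2 + (1-p) c1^2`, `|insert i T| = |T| + 1`; (3): the difference of the two sides is `4 v Om_∅^2 ≥ 0`. -/
def S_MRc : Prop := ∀ (a p : ℕ → ℝ) (J : Finset ℕ) (i : ℕ) (F : ℝ → ℝ) (z : ℝ), i ∉ J → (∀ i, 0 ≤ p i ∧ p i ≤ 1) →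
  (Ti a p (insert i J) F z = p i * Ti a p J F z + (1 - p i) * Ti a p J F (z + a i) +
    4 * (p i * (1 - p i)) * ∑ T ∈ J.powerset, wt p T * Co a p J T (hA (a i) F) z ^ 2) ∧
  (Vv a p (insert i J) F z = ∑ T ∈ J.powerset.erase ∅, wt p T * Co a p J T (gA (p i) (a i) F) z ^ 2 +
    4 * (p i * (1 - p i)) * ∑ T ∈ J.powerset, wt p T * Co a p J T (hA (a i) F) z ^ 2) ∧
  (p i * Vv a p J F z + (1 - p i) * Vv a p J F (z + a i) ≤ Vv a p (insert i J) F z)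

/-- **MGi** (the gate inequality). Uses: S_ARc, S_MNd, S_MPo, S_MRc.
Proof. `φ s = s/(1+s) ∈ [0, 1]`, `Φ J = ∑ j ∈ range d, φ (sg p (J.filter (fun i => cl i = j)))`, `A = 7 (1581 + (log d)/2) + 2`. Claim (Finset.induction_on `J`, for all `z`): `Hs J z ≤ A * Ti J z + (35/d) * Φ J * Vv J z`. `J = ∅`: `0 ≤ 0`. `insert t J`: S_ARc (1) with `X ≤ W`, S_MNd with `C = J.filter (cl i = cl t)`, `M = sqrt d` (`log M = (log d)/2`, `M^2 = d`):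
`Hs (insert t J) z ≤ p Hs J z + (1-p) Hs J (z + a t) + 28 v (1581 + (log d)/2) W + 8 v W + 28 v/(d (1+s)^2) ∑_{T ≠ ∅} wt U^2`, `s = sg p C`; `A * 4 v W = 28 v (1581 + (log d)/2) W + 8 v W` (S_MRc (1)); induction and S_MRc (3): the `Φ J`-terms are `≤ (35/d) Φ J Vv (insert t J) z`; S_MPo: `28 v/(1+s)^2 ≤ 35 (φ (s + v) - φ s) = 35 (Φ (insert t J) - Φ J)`
(only the class of `t` changes), `∑_{T ≠ ∅} wt U^2 ≤ Vv (insert t J) z` (S_MRc (2)). End: `Φ J ≤ d`, `0 ≤ Vv ≤ Ti`, `7 * 1581 + 2 + 35 ≤ 11200`, `7/2 ≤ 4`. -/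
def S_MGi : Prop := ∀ (a p : ℕ → ℝ) (F : ℝ → ℝ) (d : ℕ) (cl : ℕ → ℕ) (α : ℕ → ℝ) (J : Finset ℕ), 1 ≤ d → (∀ i, 0 ≤ p i ∧ p i ≤ 1) →
  (∀ y, F y = 1 ∨ F y = -1) → (∀ i ∈ J, cl i < d ∧ a i = α (cl i)) → ∀ z : ℝ,
  Hs a p J F z ≤ (11200 + 4 * Real.log d) * Ti a p J F z

/-- **MCo** (only the values matter). Uses: nothing.
Proof. Unfold Co, Av, Df: for `S ⊆ J \ T`, `R ⊆ T`: `z + ∑ i ∈ S, a i + ∑ i ∈ R, a i = z + ∑ i ∈ S ∪ R, a i`, `S ∪ R ⊆ J` (disjoint). -/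
def S_MCo : Prop := ∀ (a a' p : ℕ → ℝ) (J : Finset ℕ) (F F' : ℝ → ℝ) (z z' : ℝ),
  (∀ U, U ⊆ J → F (z + ∑ i ∈ U, a i) = F' (z' + ∑ i ∈ U, a' i)) → ∀ T, T ⊆ J → Co a p J T F z = Co a' p J T F' z'

/-- **MEn** (THE THEOREM). Uses: S_MGi, S_MCo.
Proof. `a i = (M + 1)^(cl i)` (real), `F y = if ∃ U ⊆ range M, ∑ i ∈ U, a i = y ∧ φ U = true then -1 else 1` (classical). For `U ⊆ range M`: `∑ i ∈ U, a i = ∑ j ∈ range d, N_j (M+1)^j`, `N_j = card (U.filter (cl i = j)) ≤ M` (Finset.sum_fiberwise). Uniqueness of the digits in base `M + 1` (Nat.ofDigits injective, or induction on `d`: reduce mod `M + 1`): equal sums give equal `N_j`,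
so `φ U = φ U'`; hence `F (∑ i ∈ U, a i) = if φ U then -1 else 1 = Ph φ (∑ i ∈ U, tw i)` (`⌊∑ i ∈ U, 2^i⌋₊.bitIndices.toFinset = U`, as in UM/UUa.lean, LD/LTr.lean). For `J ⊆ range M`, `U ⊆ range M \ J`, `U' ⊆ J`: both sides at `U ∪ U'`; S_MCo: `Hs tw p J (Ph φ) (∑ i ∈ U, tw i) = Hs a p J F (∑ i ∈ U, a i)`, the same for `Ti` (the factor `wt` and the sums are the same); S_MGi with `α j = (M+1)^j`. -/
def S_MEn : Prop := ∀ (d M : ℕ) (cl : ℕ → ℕ) (φ : Finset ℕ → Bool) (p : ℕ → ℝ), 1 ≤ d → (∀ i, i < M → cl i < d) →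
  (∀ U U' : Finset ℕ, U ⊆ range M → U' ⊆ range M →
    (∀ j, j < d → (U.filter (fun i => cl i = j)).card = (U'.filter (fun i => cl i = j)).card) → φ U = φ U') →
  (∀ i, 0 ≤ p i ∧ p i ≤ 1) → Hd (11200 + 4 * Real.log d) p M φ

end Pool.Agent.MP3145b1.MS
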