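import Pool.Agent.Lib.MP_3145b1_co.MS.Spec
import Pool.Agent.Lib.MP_3145b1_co.UI.Spec2

/-!
# MP_3145b1_co, project MS, part 2 (architect helper45): functions of a real linear form with `m` jumps are gates (gen)

The gate inequality S_UGI of project UI (architect helper90; nonnegative weights) for weights of both signs, in the form `AG.Hd`.

RULES: as in MS/Spec.lean (import Pool.Agent.Lib.MP_3145b1_co.MS.Spec2). Write `AG.Hd`, `UI.SC`, `UI.S_UGI`.
-/

set_option autoImplicit false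

namespace Pool.Agent.MP3145b1.MS

open Finset Pool.Agent.MP3145b1 Pool.Agent.MP3145b1.RC Pool.Agent.MP3145b1.RD Pool.Agent.MP3145b1.RT Pool.Agent.MP3145b1.UM Pool.Agent.MP3145b1.LD Pool.Agent.MP3145b1.AG

/-- probabilities after the change of the sign of the bits with negative weight -/
noncomputable def pn (a p : ℕ → ℝ) (i : ℕ) : ℝ := if a i < 0 then 1 - p i else p i

/-- **IFl** (change of signs). Uses: nothing.
Proof. (2): `(1 - p) (1 - (1 - p)) = p (1 - p)`. (1) Finset.induction_on `J`, for all `z`, `T`, with the sign: `Co a p J T F z = (-1)^(card of (T.filter (fun i => a i < 0))) * Co a' p' J T F (z + ∑ i ∈ J.filter (fun i => a i < 0), a i)`, `a' i = |a i|`, `p' = pn a p`. `J = ∅`: `T = ∅`, both sides `F z`. `insert i J`, `T ⊆ insert i J`: cases `i ∉ T` (Co_insert_not) and `T = insert i T'`, `T' ⊆ J` (Co_insert_mem).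
If `a i ≥ 0`: `a' i = a i`, `p' i = p i`, the point is the same. If `a i < 0`: the point for `insert i J` is `y + a i` with `y` = the point for `J`; `p' i = 1 - p i`, `y + a i + |a i| = y`: `p' C'(y + a i) + (1 - p') C'(y) = p C'(y) + (1-p) C'(y + a i)`, and `(C'(y + a i) - C'(y))/2 = - (C'(y) - C'(y + a i))/2`; the point for `J` at `z + a i` is `y + a i`. -/
def S_IFl : Prop := ∀ (a p : ℕ → ℝ) (J T : Finset ℕ), T ⊆ J →
  (∀ (F : ℝ → ℝ) (z : ℝ), Co a p J T F z ^ 2 =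
    Co (fun i => |a i|) (pn a p) J T F (z + ∑ i ∈ J.filter (fun i => a i < 0), a i) ^ 2) ∧ wt (pn a p) T = wt p T

/-- **IHd** (functions of a linear form with `m` jumps). Uses: S_MCo, S_IFl, UI.S_UGI.
Proof. Let `J ⊆ range M`, `U ⊆ range M \ J`. For `U' ⊆ J`: `U ∪ U' ⊆ range M`, `Ph φ (∑ i ∈ U, tw i + ∑ i ∈ U', tw i) = Ph φ (∑ i ∈ U ∪ U', tw i) = if φ (U ∪ U') then -1 else 1 = F (z + ∑ i ∈ U, a i + ∑ i ∈ U', a i)` (`⌊∑ i ∈ V, 2^i⌋₊.bitIndices.toFinset = V` as in UM/UUa.lean, LD/LTr.lean; `F` has the values `1`, `-1`).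
S_MCo: `Co tw p J T (Ph φ) (∑ i ∈ U, tw i) = Co a p J T F (z + ∑ i ∈ U, a i)` for `T ⊆ J`; S_IFl: its square is the square of `Co (|a|) (pn a p) J T F z''`, and `wt p T = wt (pn a p) T`. So `Hs` and `Ti` of the two sides are equal, and UI.S_UGI with the weights `|a i| ≥ 0` and the probabilities `pn a p` in `[0, 1]`. -/
def S_IHd : Prop := ∀ (m M : ℕ) (a p : ℕ → ℝ) (F : ℝ → ℝ) (Θ : Finset ℝ) (z : ℝ) (φ : Finset ℕ → Bool),
  (∀ i, 0 ≤ p i ∧ p i ≤ 1) → UI.SC F Θ → Θ.card ≤ m → (∀ U, U ⊆ range M → (φ U = true ↔ F (z + ∑ i ∈ U, a i) = -1)) →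
  AG.Hd (700 * Real.log ((m : ℝ) + 2)) p M φ

end Pool.Agent.MP3145b1.MS
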